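import Pool.Agent.Q256.EC.Stm

/-!
Project EC (helper256, helper170), job GSB: the gap property and progressions.
-/

set_option autoImplicit false

namespace Pool.Agent.Q195.EC

open Pool.Agent.Q256.EC
open Pool.Agent.Q170.GP (GapP)

theorem gsb : S_GSB := by
  intro p hp
  refine ⟨fun μ S S' hS h A hA => h A fun n hn => hS (hA n hn), fun μ S j K hK h => ?_,
    fun S hS => ?_⟩
  · refine ⟨μ + (j + K) * (2 * μ) + 1, ?_⟩
    intro A hA hc X L hX hL
    have hinj : Function.Injective fun n : ℕ => j + K * n := fun a b hab => by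
      have h1 : K * a = K * b := by
        simp only at hab
        omega
      exact Nat.eq_of_mul_eq_mul_left hK h1
    have hL0 : 0 < L := by
      by_contra hcon
      have h0 : L = 0 := by omega
      have h4 : A ⊆ {0} := fun a ha => by
        rw [Finset.mem_singleton]
        have := hL a ha
        omega
      have := Finset.card_le_card h4
      rw [Finset.card_singleton] at this
      omega
    have h1 := h (A.image fun n => j + K * n) (by
      intro n hn
      obtain ⟨m, hm, rfl⟩ := Finset.mem_image.1 hn
      exact hA m hm) (by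
      rw [Finset.card_image_of_injective _ hinj]
      omega) (j + K * X) (j + K * L) (by
      intro n hn
      obtain ⟨m, hm, rfl⟩ := Finset.mem_image.1 hn
      exact Nat.add_le_add_left (Nat.mul_le_mul_left _ (hX m hm)) _) (by
      intro n hn
      obtain ⟨m, hm, rfl⟩ := Finset.mem_image.1 hn
      exact Nat.add_le_add_left (Nat.mul_le_mul_left _ (hL m hm)) _)
    have hX' : X ≤ j + K * X := by
      have := Nat.le_mul_of_pos_left X hK
      omega
    have h2 : p ^ X ≤ p ^ (j + K * X) := Nat.pow_le_pow_right (by omega) hX'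
    have h3 : j + K * L ≤ (j + K) * L := by
      rw [add_mul]
      have := Nat.le_mul_of_pos_right j hL0
      omega
    have h5 : j + K ≤ p ^ (j + K) := (Nat.lt_pow_self (by omega)).le
    have h6 : (j + K * L) ^ (2 * μ) ≤ (p ^ (j + K) * L) ^ (2 * μ) :=
      Nat.pow_le_pow_left (h3.trans (Nat.mul_le_mul_right _ h5)) _
    calc p ^ X ≤ p ^ (j + K * X) := h2
      _ < p ^ μ * (j + K * L) ^ (2 * μ) := h1
      _ ≤ p ^ μ * (p ^ (j + K) * L) ^ (2 * μ) := Nat.mul_le_mul_left _ h6
      _ = p ^ (μ + (j + K) * (2 * μ)) * L ^ (2 * μ) := by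
          rw [mul_pow, ← pow_mul, pow_add]
          ring
      _ ≤ p ^ (μ + (j + K) * (2 * μ) + 1) * L ^ (2 * (μ + (j + K) * (2 * μ) + 1)) :=
          Nat.mul_le_mul (Nat.pow_le_pow_right (by omega) (by omega))
            (Nat.pow_le_pow_right hL0 (by nlinarith [Nat.zero_le ((j + K) * (2 * μ))]))
  · refine ⟨hS.toFinset.card, ?_⟩
    intro A hA hc
    exfalso
    have h1 : A ⊆ hS.toFinset := fun n hn => by
      rw [Set.Finite.mem_toFinset]
      exact hA n hn
    have := Finset.card_le_card h1
    omega

end Pool.Agent.Q195.EC
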