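import Pool.Agent.Q256.EC.Stm

/-!
Project EC (helper256, helper170), job SMS: the two classes of small sequences.
-/

set_option autoImplicit false

namespace Pool.Agent.Q195.EC

open Pool.Agent.Q256.EC
open Filter (Tendsto atTop)

theorem sms_gen (W : ℕ → ℕ → ℝ) (E : ℕ → ℝ) (hW : ∀ k n, 0 < W k n) 
    (hs : ∀ k n, W k (n + 1) ≤ E k * W k n) :
    Pool.Agent.Q256.EC.Small {a : ℕ → ℝ | ∀ k : ℕ, ∃ C : ℝ, ∀ n, |a n| ≤ C * W k n} where
  zero := fun k => ⟨0, fun n => by simp⟩
  add := fun a ha b hb k => by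
    obtain ⟨C, hC⟩ := ha k
    obtain ⟨C', hC'⟩ := hb k
    refine ⟨C + C', fun n => ?_⟩
    rw [add_mul]
    exact (abs_add_le _ _).trans (add_le_add (hC n) (hC' n))
  smul := fun a ha c hc k => by
    obtain ⟨C, hC⟩ := ha k
    refine ⟨c * C, fun n => ?_⟩
    rw [abs_mul, abs_of_nonneg hc, mul_assoc]
    exact mul_le_mul_of_nonneg_left (hC n) hc
  dom := fun a ha b hb0 hb k => by
    obtain ⟨C, hC⟩ := ha k
    obtain ⟨N, hN⟩ := Filter.eventually_atTop.1 hb
    refine ⟨|C| + ∑ m ∈ Finset.range N, b m / W k m, fun n => ?_⟩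
    have hS : ∀ m ∈ Finset.range N, 0 ≤ b m / W k m := fun m _ => div_nonneg (hb0 m) (hW k m).le
    rw [abs_of_nonneg (hb0 n)]
    rcases le_or_gt N n with h | h
    · have h1 : b n ≤ C * W k n := (hN n h).trans ((le_abs_self _).trans (hC n))
      refine h1.trans (mul_le_mul_of_nonneg_right ?_ (hW k n).le)
      have := le_abs_self C
      have := Finset.sum_nonneg hS
      linarith
    · have h1 := Finset.single_le_sum hS (Finset.mem_range.2 h)
      have h2 : b n = b n / W k n * W k n := by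
        rw [div_mul_cancel₀ _ (hW k n).ne']
      have h3 : b n / W k n * W k n ≤ (|C| + ∑ m ∈ Finset.range N, b m / W k m) * W k n := by
        refine mul_le_mul_of_nonneg_right ?_ (hW k n).le
        have := abs_nonneg C
        linarith
      rwa [← h2] at h3
  shift := fun a ha k => by
    obtain ⟨C, hC⟩ := ha k
    refine ⟨|C| * E k, fun n => ?_⟩
    calc |a (n + 1)| ≤ C * W k (n + 1) := hC (n + 1)
      _ ≤ |C| * W k (n + 1) := mul_le_mul_of_nonneg_right (le_abs_self C) (hW k _).le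
      _ ≤ |C| * (E k * W k n) := mul_le_mul_of_nonneg_left (hs k n) (abs_nonneg C)
      _ = |C| * E k * W k n := by ring

theorem sms : S_SMS := by
  refine ⟨fun σ h0 h1 => ?_, fun δ D hD hδ hs => ?_⟩
  · refine sms_gen (fun k n => (σ ^ k) ^ n) (fun _ => 1) (fun k n => by positivity)
      (fun k n => ?_)
    rw [pow_succ, one_mul]
    have h2 : σ ^ k ≤ 1 := pow_le_one₀ h0.le h1.le
    exact mul_le_of_le_one_right (by positivity) h2
  · refine sms_gen (fun k n => δ n ^ k) (fun k => D ^ k) (fun k n => pow_pos (hδ n) k)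
      (fun k n => ?_)
    rw [← mul_pow]
    exact pow_le_pow_left₀ (hδ _).le (hs n) k

end Pool.Agent.Q195.EC
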